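import Mathlib

set_option autoImplicit false

namespace Pool.Agent.Results.MP_8a2df8_gt.GrothCompact

open Set Filter Topology

universe u v w

/-- `C_p(X)`: the set of continuous functions `X → ℝ`, with the topology of pointwise convergence
(as a subspace of the product `X → ℝ`). -/
abbrev Cp (X : Type u) [TopologicalSpace X] : Type u := {f : X → ℝ // Continuous f}

/-- `A` is countably compact in `Z`: every infinite subset of `A` has an accumulation point in
`Z`. -/
def CountablyCompactIn {Z : Type u} [TopologicalSpace Z] (A : Set Z) : Prop :=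
  ∀ B : Set Z, B ⊆ A → B.Infinite → ∃ z : Z, AccPt z (𝓟 B)

/-- `Z` is a g-space: the closure of every set that is countably compact in `Z` is compact. -/
def IsGSpace (Z : Type u) [TopologicalSpace Z] : Prop :=
  ∀ A : Set Z, CountablyCompactIn A → IsCompact (closure A)

/-- `X` is Grothendieck: every subspace of `C_p(X)` is a g-space. -/
def Grothendieck (X : Type u) [TopologicalSpace X] : Prop := ∀ S : Set (Cp X), IsGSpace S

section part1

/-- sequences with values in a countably compact set have cluster points -/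
theorem exists_cluster {Z : Type u} [TopologicalSpace Z] [T1Space Z] (A : Set Z)
    (hA : CountablyCompactIn A) (v : ℕ → Z) (hv : ∀ n, v n ∈ A) :
    ∃ g : Z, ∀ U ∈ 𝓝 g, ∃ᶠ n in atTop, v n ∈ U := by
  by_cases hfin : (Set.range v).Finite
  · by_contra hcon
    push Not at hcon
    have h1 : ∀ g : Z, ∀ᶠ n in atTop, v n ≠ g := by
      intro g
      obtain ⟨U, hU, hUn⟩ := hcon g
      filter_upwards [hUn] with n hn h
      rw [h] at hn
      exact hn (mem_of_mem_nhds hU)
    have h2 : ∀ᶠ n in atTop, ∀ g ∈ Set.range v, v n ≠ g := by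
      rw [Filter.eventually_all_finite hfin]
      intro g _
      exact h1 g
    obtain ⟨n, hn⟩ := h2.exists
    exact hn (v n) ⟨n, rfl⟩ rfl
  · obtain ⟨g, hg⟩ := hA (Set.range v) (by rintro _ ⟨n, rfl⟩; exact hv n) hfin
    refine ⟨g, fun U hU => ?_⟩
    rw [Filter.frequently_atTop]
    intro N
    rw [accPt_iff_nhds] at hg
    have hfinset : ((v '' Set.Iio N) \ {g}).Finite := ((Set.finite_Iio N).image v).sdiff
    have hU' : U ∩ ((v '' Set.Iio N) \ {g})ᶜ ∈ 𝓝 g := by
      apply Filter.inter_mem hU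
      apply hfinset.isClosed.isOpen_compl.mem_nhds
      intro h
      exact h.2 rfl
    obtain ⟨y, ⟨⟨hyU, hyc⟩, ⟨n, rfl⟩⟩, hne⟩ := hg _ hU'
    refine ⟨n, ?_, hyU⟩
    by_contra hlt
    push Not at hlt
    exact hyc ⟨⟨n, hlt, rfl⟩, hne⟩

variable {X : Type u} [TopologicalSpace X]

theorem eq_of_close (a b : ℝ) (h : ∀ ε > 0, |a - b| < ε) : a = b := by
  by_contra hne
  exact lt_irrefl _ (h _ (abs_pos.mpr (sub_ne_zero.mpr hne)))

/-- a countable set which is dense for finitely many functions -/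
theorem exists_dense_seq (Φ : Finset (Cp X)) (F : X → ℝ) (x0 : X) :
    ∃ D : ℕ → X, ∀ x : X, ∀ ε > 0, ∃ j, |F (D j) - F x| < ε ∧ ∀ f ∈ Φ, |f.1 (D j) - f.1 x| < ε := by
  let q : X → (Φ → ℝ) × ℝ := fun x => (fun f => f.1.1 x, F x)
  have : Nonempty (Set.range q) := ⟨⟨q x0, x0, rfl⟩⟩
  have : TopologicalSpace.SeparableSpace (Set.range q) := inferInstance
  let d := TopologicalSpace.denseSeq (Set.range q)
  have hd := TopologicalSpace.denseRange_denseSeq (Set.range q)
  choose D hD using fun j => (d j).2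
  refine ⟨D, fun x ε hε => ?_⟩
  obtain ⟨j, hj0⟩ := hd.exists_dist_lt ⟨q x, x, rfl⟩ hε
  have hj : dist (d j).1 (q x) < ε := by
    rw [dist_comm]
    exact hj0
  refine ⟨j, ?_, ?_⟩
  · have h1 : dist (d j).1 (q x) < ε := hj
    rw [← hD j] at h1
    have h2 := (max_lt_iff.mp (by simpa [Prod.dist_eq] using h1 : max (dist (q (D j)).1 (q x).1) (dist (q (D j)).2 (q x).2) < ε)).2
    rwa [Real.dist_eq] at h2
  · intro f hf
    have h1 : dist (d j).1 (q x) < ε := hj
    rw [← hD j] at h1
    have h2 := (max_lt_iff.mp (by simpa [Prod.dist_eq] using h1 : max (dist (q (D j)).1 (q x).1) (dist (q (D j)).2 (q x).2) < ε)).1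
    have h3 := (dist_pi_lt_iff hε).mp h2 ⟨f, hf⟩
    rwa [Real.dist_eq] at h3

theorem approx (A : Set (Cp X)) (F : X → ℝ)
    (hF : F ∈ closure ((fun f : Cp X => f.1) '' A)) (E : Finset X) (ε : ℝ) (hε : 0 < ε) :
    ∃ f ∈ A, ∀ x ∈ E, |f.1 x - F x| < ε := by
  have hopen : IsOpen {G : X → ℝ | ∀ x ∈ E, |G x - F x| < ε} := by
    have : {G : X → ℝ | ∀ x ∈ E, |G x - F x| < ε} = ⋂ x ∈ E, {G : X → ℝ | |G x - F x| < ε} := by
      ext; simp
    rw [this]
    apply isOpen_biInter_finset
    intro x _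
    exact isOpen_lt (((continuous_apply x).sub continuous_const).abs) continuous_const
  obtain ⟨_, hG, ⟨f, hf, rfl⟩⟩ := mem_closure_iff.mp hF _ hopen (by
    intro x _
    simpa using hε)
  exact ⟨f, hf, hG⟩

/-- the main construction: a function in the closure of `A` is the pointwise limit of a sequence of
elements of `A`, if `X` is countably compact. -/
theorem seq_limit [T1Space X] (hX : CountablyCompactIn (Set.univ : Set X))
    (A : Set (Cp X))
    (hcl : ∀ v : ℕ → Cp X, (∀ n, v n ∈ A) → ∃ g : Cp X, ∀ U ∈ 𝓝 g, ∃ᶠ n in atTop, v n ∈ U)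
    (F : X → ℝ) (hF : F ∈ closure ((fun f : Cp X => f.1) '' A)) (x0 : X) :
    ∃ f : ℕ → Cp X, (∀ n, f n ∈ A) ∧ ∀ x, Tendsto (fun n => (f n).1 x) atTop (𝓝 (F x)) := by
  classical
  choose D hD using fun Φ : Finset (Cp X) => exists_dense_seq Φ F x0
  -- states
  let P : (ℕ × Finset (Cp X) × Cp X) → Prop := fun s => s.2.2 ∈ A
  let r : (ℕ × Finset (Cp X) × Cp X) → (ℕ × Finset (Cp X) × Cp X) → Prop := fun s s' =>
    s.1 < s'.1 ∧ s.2.1 ⊆ s'.2.1 ∧ s.2.2 ∈ s'.2.1 ∧
      ∀ j ≤ s'.1, |s'.2.2.1 (D s.2.1 j) - F (D s.2.1 j)| < 1 / ((s'.1 : ℝ) + 1)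
  obtain ⟨st, hstP, hstr⟩ := exists_seq_of_forall_finset_exists P r (by
    intro s hs
    let k : ℕ := (s.sup (fun a => a.1)) + 1
    let Φ : Finset (Cp X) := s.biUnion (fun a => insert a.2.2 a.2.1)
    let E : Finset X := s.biUnion (fun a => (Finset.range (k+1)).image (D a.2.1))
    obtain ⟨f, hfA, hf⟩ := approx A F hF E (1 / ((k : ℝ) + 1)) (by positivity)
    refine ⟨(k, Φ, f), hfA, ?_⟩
    intro a ha
    refine ⟨?_, ?_, ?_, ?_⟩
    · have : a.1 ≤ s.sup (fun a => a.1) := Finset.le_sup (f := fun a : ℕ × Finset (Cp X) × Cp X => a.1) ha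
      show a.1 < k
      omega
    · intro b hb
      exact Finset.mem_biUnion.mpr ⟨a, ha, Finset.mem_insert_of_mem hb⟩
    · exact Finset.mem_biUnion.mpr ⟨a, ha, Finset.mem_insert_self _ _⟩
    · intro j hj
      apply hf
      exact Finset.mem_biUnion.mpr ⟨a, ha, Finset.mem_image.mpr ⟨j, Finset.mem_range.mpr (Nat.lt_succ_of_le hj), rfl⟩⟩)
  have hk : ∀ n, n ≤ (st n).1 := by
    intro n
    induction n with
    | zero => exact Nat.zero_le _
    | succ n ih => exact lt_of_le_of_lt ih (hstr n (n+1) (Nat.lt_succ_self n)).1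
  let f : ℕ → Cp X := fun n => (st n).2.2
  have hfA : ∀ n, f n ∈ A := hstP
  -- convergence on the dense points
  have hconvD : ∀ m j, ∀ ε > 0, ∀ᶠ n in atTop, |(f n).1 (D (st m).2.1 j) - F (D (st m).2.1 j)| < ε := by
    intro m j ε hε
    obtain ⟨N, hN⟩ := exists_nat_one_div_lt hε
    filter_upwards [eventually_gt_atTop m, eventually_ge_atTop j, eventually_ge_atTop N] with n h1 h2 h3
    refine lt_of_lt_of_le ((hstr m n h1).2.2.2 j (h2.trans (hk n))) (le_trans ?_ hN.le)
    have : (N : ℝ) ≤ ((st n).1 : ℝ) := by exact_mod_cast h3.trans (hk n)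
    gcongr
  refine ⟨f, hfA, fun x => ?_⟩
  rw [Metric.tendsto_atTop']
  intro ε hε
  by_contra hcon
  push Not at hcon
  -- subsequence far from F x
  have hfreq : ∃ᶠ n in atTop, ε ≤ |(f n).1 x - F x| := by
    rw [Filter.frequently_atTop']
    intro N
    obtain ⟨n, hn, hd⟩ := hcon N
    exact ⟨n, hn, by rwa [Real.dist_eq] at hd⟩
  obtain ⟨φ, hφmono, hφ⟩ := Filter.extraction_of_frequently_atTop hfreq
  obtain ⟨g, hg⟩ := hcl (fun n => f (φ n)) (fun n => hfA _)
  -- points s m
  have hs : ∀ m : ℕ, ∃ j, |F (D (st m).2.1 j) - F x| < 1 / ((m : ℝ) + 1) ∧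
      ∀ h ∈ (st m).2.1, |h.1 (D (st m).2.1 j) - h.1 x| < 1 / ((m : ℝ) + 1) :=
    fun m => hD _ x _ (by positivity)
  choose j hj1 hj2 using hs
  let s : ℕ → X := fun m => D (st m).2.1 (j m)
  obtain ⟨y, hy⟩ := exists_cluster Set.univ hX s (fun _ => trivial)
  -- generic: frequently close
  have hyc : ∀ h : Cp X, ∀ δ > 0, ∃ᶠ m in atTop, |h.1 (s m) - h.1 y| < δ := by
    intro h δ hδ
    refine hy {z : X | |h.1 z - h.1 y| < δ} ?_
    have : IsOpen {z : X | |h.1 z - h.1 y| < δ} :=
      isOpen_lt ((h.2.sub continuous_const).abs) continuous_const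
    exact this.mem_nhds (by simpa using hδ)
  have hgc : ∀ (E : Finset X) (δ : ℝ), 0 < δ → ∃ᶠ n in atTop, ∀ z ∈ E, |(f (φ n)).1 z - g.1 z| < δ := by
    intro E δ hδ
    have hopen : IsOpen {G : Cp X | ∀ z ∈ E, |G.1 z - g.1 z| < δ} := by
      have : {G : Cp X | ∀ z ∈ E, |G.1 z - g.1 z| < δ} = ⋂ z ∈ E, {G : Cp X | |G.1 z - g.1 z| < δ} := by
        ext; simp
      rw [this]
      apply isOpen_biInter_finset
      intro z _
      exact isOpen_lt ((((continuous_apply z).comp continuous_subtype_val).sub continuous_const).abs) continuous_const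
    exact hg _ (hopen.mem_nhds (by intro z _; simpa using hδ))
  have hsmall : ∀ δ > (0:ℝ), ∀ᶠ m : ℕ in atTop, 1 / ((m : ℝ) + 1) < δ := by
    intro δ hδ
    obtain ⟨N, hN⟩ := exists_nat_one_div_lt hδ
    filter_upwards [eventually_ge_atTop N] with m hm
    refine lt_of_le_of_lt ?_ hN
    have : (N : ℝ) ≤ m := by exact_mod_cast hm
    gcongr
  -- (1)
  have h1 : ∀ i, (f i).1 y = (f i).1 x := by
    intro i
    apply eq_of_close
    intro δ hδ
    obtain ⟨m, hm1, hm2, hm3⟩ := ((hyc (f i) (δ/2) (by positivity)).and_eventually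
      ((hsmall (δ/2) (by positivity)).and (eventually_gt_atTop i))).exists
    have h := hj2 m (f i) (hstr i m hm3).2.2.1
    have h' : |(f i).1 (s m) - (f i).1 x| < δ / 2 := h.trans hm2
    have e : (f i).1 y - (f i).1 x = -((f i).1 (s m) - (f i).1 y) + ((f i).1 (s m) - (f i).1 x) := by ring
    rw [e]
    calc _ ≤ |-((f i).1 (s m) - (f i).1 y)| + |(f i).1 (s m) - (f i).1 x| := abs_add_le _ _
      _ < δ := by rw [abs_neg]; linarith
  -- (2)
  have h2 : ∀ m, g.1 (s m) = F (s m) := by
    intro m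
    apply eq_of_close
    intro δ hδ
    have hev := (hφmono.tendsto_atTop.eventually (hconvD m (j m) (δ/2) (by positivity)))
    obtain ⟨n, hn1, hn2⟩ := ((hgc {s m} (δ/2) (by positivity)).and_eventually hev).exists
    have hn1' := hn1 (s m) (by simp)
    have hn2' : |(f (φ n)).1 (s m) - F (s m)| < δ / 2 := hn2
    have e : g.1 (s m) - F (s m) = -((f (φ n)).1 (s m) - g.1 (s m)) + ((f (φ n)).1 (s m) - F (s m)) := by ring
    rw [e]
    calc _ ≤ |-((f (φ n)).1 (s m) - g.1 (s m))| + |(f (φ n)).1 (s m) - F (s m)| := abs_add_le _ _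
      _ < δ := by rw [abs_neg]; linarith
  -- (3)
  have h3 : g.1 y = F x := by
    apply eq_of_close
    intro δ hδ
    obtain ⟨m, hm1, hm2⟩ := ((hyc g (δ/2) (by positivity)).and_eventually
      (hsmall (δ/2) (by positivity))).exists
    have h' : |F (s m) - F x| < δ / 2 := (hj1 m).trans hm2
    have e : g.1 y - F x = -(g.1 (s m) - g.1 y) + (F (s m) - F x) := by rw [h2 m]; ring
    rw [e]
    calc _ ≤ |-(g.1 (s m) - g.1 y)| + |F (s m) - F x| := abs_add_le _ _
      _ < δ := by rw [abs_neg]; linarith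
  -- (4)
  have h4 : g.1 x = g.1 y := by
    apply eq_of_close
    intro δ hδ
    obtain ⟨n, hn⟩ := (hgc {x, y} (δ/2) (by positivity)).exists
    have hx := hn x (by simp)
    have hy' := hn y (by simp)
    rw [h1] at hy'
    have e : g.1 x - g.1 y = -((f (φ n)).1 x - g.1 x) + ((f (φ n)).1 x - g.1 y) := by ring
    rw [e]
    calc _ ≤ |-((f (φ n)).1 x - g.1 x)| + |(f (φ n)).1 x - g.1 y| := abs_add_le _ _
      _ < δ := by rw [abs_neg]; linarith
  obtain ⟨n, hn⟩ := (hgc {x} ε hε).exists
  have hx := hn x (by simp)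
  rw [h4, h3] at hx
  exact absurd hx (not_lt.mpr (hφ n))

/-- Countably compact T1 spaces are Grothendieck (Grothendieck's theorem). -/
theorem groth_of_cc [T1Space X] (hX : CountablyCompactIn (Set.univ : Set X)) : Grothendieck X := by
  intro S A hA
  have : T1Space S := inferInstance
  rcases isEmpty_or_nonempty X with hE | ⟨⟨x0⟩⟩
  · have : Subsingleton S := ⟨fun a b => Subtype.ext (Subtype.ext (funext fun x => (hE.false x).elim))⟩
    exact (Set.toFinite _).isCompact
  -- image of A in Cp X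
  let A' : Set (Cp X) := (fun a : S => a.1) '' A
  have hcl : ∀ v : ℕ → Cp X, (∀ n, v n ∈ A') → ∃ g : S, ∀ U ∈ 𝓝 g.1, ∃ᶠ n in atTop, v n ∈ U := by
    intro v hv
    choose w hwA hw using hv
    obtain ⟨g, hg⟩ := exists_cluster A hA w hwA
    refine ⟨g, fun U hU => ?_⟩
    have := hg ((fun a : S => a.1) ⁻¹' U) (continuous_subtype_val.continuousAt.preimage_mem_nhds hU)
    refine this.mono fun n hn => ?_
    rw [← hw n]
    exact hn
  -- pointwise bounded
  have hbdd : ∀ x : X, ∃ M : ℝ, ∀ f ∈ A', |f.1 x| ≤ M := by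
    intro x
    by_contra hcon
    push Not at hcon
    choose v hvA hv using fun n : ℕ => hcon n
    obtain ⟨g, hg⟩ := hcl v hvA
    have hopen : IsOpen {G : Cp X | |G.1 x - g.1.1 x| < 1} :=
      isOpen_lt ((((continuous_apply x).comp continuous_subtype_val).sub continuous_const).abs) continuous_const
    have h1 := hg _ (hopen.mem_nhds (by simp))
    obtain ⟨N, hN⟩ := exists_nat_ge (|g.1.1 x| + 1)
    obtain ⟨n, hn, hn2⟩ := (h1.and_eventually (eventually_ge_atTop N)).exists
    have hn' : |(v n).1 x - g.1.1 x| < 1 := hn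
    have h3 := hv n
    have h4 : |(v n).1 x| ≤ |(v n).1 x - g.1.1 x| + |g.1.1 x| := by
      have := abs_add_le ((v n).1 x - g.1.1 x) (g.1.1 x)
      simpa using this
    have h5 : (N : ℝ) ≤ n := by exact_mod_cast hn2
    linarith
  choose M hM using hbdd
  let ι : S → (X → ℝ) := fun a => a.1.1
  have hι : IsEmbedding ι := IsEmbedding.subtypeVal.comp IsEmbedding.subtypeVal
  have himg : ι '' A = (fun f : Cp X => f.1) '' A' := by
    rw [Set.image_image]
  have hKc : IsCompact (closure (ι '' A)) := by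
    apply IsCompact.of_isClosed_subset (isCompact_univ_pi (fun x => isCompact_Icc (a := -M x) (b := M x))) isClosed_closure
    apply closure_minimal _ (isClosed_set_pi fun x _ => isClosed_Icc)
    rw [himg]
    rintro _ ⟨f, hf, rfl⟩ x _
    exact abs_le.mp (hM x f hf)
  have hrange : closure (ι '' A) ⊆ Set.range ι := by
    intro F hF
    rw [himg] at hF
    obtain ⟨f, hfA, hf⟩ := seq_limit hX A' (fun v hv => by
      obtain ⟨g, hg⟩ := hcl v hv
      exact ⟨g.1, hg⟩) F hF x0
    obtain ⟨g, hg⟩ := hcl f hfA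
    refine ⟨g, ?_⟩
    funext x
    show g.1.1 x = F x
    apply eq_of_close
    intro δ hδ
    have hopen : IsOpen {G : Cp X | |G.1 x - g.1.1 x| < δ/2} :=
      isOpen_lt ((((continuous_apply x).comp continuous_subtype_val).sub continuous_const).abs) continuous_const
    have h1 := hg _ (hopen.mem_nhds (by
      show |g.1.1 x - g.1.1 x| < δ/2
      simpa using hδ))
    have h2 : ∀ᶠ n in atTop, |(f n).1 x - F x| < δ/2 := by
      have := (Metric.tendsto_nhds.mp (hf x)) (δ/2) (by positivity)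
      simpa [Real.dist_eq] using this
    obtain ⟨n, hn1, hn2⟩ := (h1.and_eventually h2).exists
    have hn1' : |(f n).1 x - g.1.1 x| < δ/2 := hn1
    have e : g.1.1 x - F x = -((f n).1 x - g.1.1 x) + ((f n).1 x - F x) := by ring
    rw [e]
    calc _ ≤ |-((f n).1 x - g.1.1 x)| + |(f n).1 x - F x| := abs_add_le _ _
      _ < δ := by rw [abs_neg]; linarith
  rw [hι.isCompact_iff]
  have : ι '' closure A = closure (ι '' A) := by
    rw [hι.closure_eq_preimage_closure_image, Set.image_preimage_eq_of_subset hrange]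
  rw [this]
  exact hKc

end part1
section reform

/-- every sequence of elements of `A` has a cluster point in `S` -/
def SC {X : Type u} (S A : Set (X → ℝ)) : Prop :=
  ∀ w : ℕ → X → ℝ, (∀ n, w n ∈ A) → ∃ g ∈ S, MapClusterPt g atTop w

/-- reformulation of the Grothendieck property -/
def GG (X : Type u) [TopologicalSpace X] : Prop :=
  ∀ S A : Set (X → ℝ), (∀ f ∈ S, Continuous f) → SC S A → closure A ⊆ S

theorem mem_cl_iff {X : Type u} (A : Set (X → ℝ)) (F : X → ℝ) :
    F ∈ closure A ↔ ∀ (E : Finset X) (ε : ℝ), 0 < ε → ∃ f ∈ A, ∀ x ∈ E, |f x - F x| < ε := by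
  constructor
  · intro hF E ε hε
    have hopen : IsOpen {G : X → ℝ | ∀ x ∈ E, |G x - F x| < ε} := by
      have : {G : X → ℝ | ∀ x ∈ E, |G x - F x| < ε} = ⋂ x ∈ E, {G : X → ℝ | |G x - F x| < ε} := by
        ext; simp
      rw [this]
      apply isOpen_biInter_finset
      intro x _
      exact isOpen_lt (((continuous_apply x).sub continuous_const).abs) continuous_const
    obtain ⟨f, hG, hf⟩ := mem_closure_iff.mp hF _ hopen (by
      intro x _
      simpa using hε)
    exact ⟨f, hf, hG⟩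
  · intro h
    rw [mem_closure_iff]
    intro O hO hFO
    obtain ⟨I, W, hW, hI⟩ := isOpen_pi_iff.mp hO F hFO
    have h1 : ∀ᶠ ε in 𝓝[>] (0:ℝ), ∀ a ∈ I, Metric.ball (F a) ε ⊆ W a := by
      rw [Filter.eventually_all_finset]
      intro a ha
      obtain ⟨ε0, hε0, hb⟩ := Metric.isOpen_iff.mp (hW a ha).1 (F a) (hW a ha).2
      filter_upwards [Ioo_mem_nhdsGT hε0] with ε hε
      exact (Metric.ball_subset_ball hε.2.le).trans hb
    obtain ⟨ε, h2, hε⟩ := (h1.and (self_mem_nhdsWithin)).exists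
    obtain ⟨f, hf, hfε⟩ := h I ε hε
    refine ⟨f, hI ?_, hf⟩
    intro a ha
    apply h2 a ha
    rw [Metric.mem_ball, Real.dist_eq]
    exact hfε a ha

theorem SC.image {X : Type u} {Y : Type v} {S A : Set (X → ℝ)} (h : SC S A)
    (Φ : (X → ℝ) → (Y → ℝ)) (hΦ : Continuous Φ) : SC (Φ '' S) (Φ '' A) := by
  intro w hw
  choose w' hw' hww using hw
  obtain ⟨g, hg, hcl⟩ := h w' hw'
  refine ⟨Φ g, ⟨g, hg, rfl⟩, ?_⟩
  have h1 : MapClusterPt (Φ g) atTop (Φ ∘ w') := hcl.continuousAt_comp hΦ.continuousAt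
  have h2 : Φ ∘ w' = w := funext hww
  rwa [h2] at h1

theorem SC.mono {X : Type u} {S S' A A' : Set (X → ℝ)} (h : SC S A) (hS : S ⊆ S') (hA : A' ⊆ A) :
    SC S' A' := by
  intro w hw
  obtain ⟨g, hg, hcl⟩ := h w (fun n => hA (hw n))
  exact ⟨g, hS hg, hcl⟩

theorem mcp_mem_closure {X : Type u} {w : ℕ → X → ℝ} {g : X → ℝ} (h : MapClusterPt g atTop w)
    (A : Set (X → ℝ)) (hw : ∀ n, w n ∈ A) : g ∈ closure A := by
  have h' : ClusterPt g (map w atTop) := h
  refine h'.mem_closure_of_mem A ?_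
  exact Filter.mem_map.mpr (Filter.Eventually.of_forall hw)

/-- cluster points in `S` may be taken in closures of countable subsets of `A` -/
theorem SC.refine {X : Type u} {S A : Set (X → ℝ)} (h : SC S A) :
    SC {g | g ∈ S ∧ ∃ B, B ⊆ A ∧ B.Countable ∧ g ∈ closure B} A := by
  intro w hw
  obtain ⟨g, hg, hcl⟩ := h w hw
  refine ⟨g, ⟨hg, Set.range w, ?_, Set.countable_range w, ?_⟩, hcl⟩
  · rintro _ ⟨n, rfl⟩; exact hw n
  · exact mcp_mem_closure hcl _ (fun n => ⟨n, rfl⟩)

theorem GG_of_groth {X : Type u} [TopologicalSpace X] (hX : Grothendieck X) : GG X := by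
  intro S A hS h
  let S1 : Set (Cp X) := {f | f.1 ∈ S}
  let A1 : Set S1 := {f | f.1.1 ∈ A}
  have hAS : A ⊆ S := by
    intro f hf
    obtain ⟨g, hg, hcl⟩ := h (fun _ => f) (fun _ => hf)
    have : g ∈ closure ({f} : Set (X → ℝ)) := mcp_mem_closure hcl _ (fun n => rfl)
    rw [closure_singleton] at this
    rw [← (Set.mem_singleton_iff.mp this)]
    exact hg
  have hcc : CountablyCompactIn A1 := by
    intro B hB hBinf
    have : Infinite B := hBinf.to_subtype
    let e := Infinite.natEmbedding B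
    obtain ⟨g, hg, hcl⟩ := h (fun n => (e n).1.1.1) (fun n => hB (e n).2)
    refine ⟨⟨⟨g, hS g hg⟩, hg⟩, ?_⟩
    rw [accPt_iff_nhds]
    intro U hU
    have hemb : IsEmbedding (fun a : S1 => a.1.1) := IsEmbedding.subtypeVal.comp IsEmbedding.subtypeVal
    rw [hemb.nhds_eq_comap] at hU
    obtain ⟨O, hO, hOU⟩ := Filter.mem_comap.mp hU
    have hfr := mapClusterPt_iff_frequently.mp hcl O hO
    have hfr2 : ∃ᶠ n in atTop, (e n).1 ≠ (⟨⟨g, hS g hg⟩, hg⟩ : S1) ∧ (e n).1.1.1 ∈ O := by
      by_contra hcon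
      rw [Filter.not_frequently] at hcon
      have h3 := hfr.and_eventually hcon
      -- two distinct indices
      obtain ⟨n1, hn1⟩ := h3.exists
      obtain ⟨n2, hn2, hlt⟩ := (h3.and_eventually (eventually_gt_atTop n1)).exists
      have e1 : (e n1).1 = (⟨⟨g, hS g hg⟩, hg⟩ : S1) := by
        by_contra hne
        exact hn1.2 ⟨hne, hn1.1⟩
      have e2 : (e n2).1 = (⟨⟨g, hS g hg⟩, hg⟩ : S1) := by
        by_contra hne
        exact hn2.2 ⟨hne, hn2.1⟩
      have := e.injective (Subtype.ext (e1.trans e2.symm))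
      omega
    obtain ⟨n, hne, hnO⟩ := hfr2.exists
    exact ⟨(e n).1, ⟨hOU hnO, (e n).2⟩, hne⟩
  have hK := hX S1 A1 hcc
  have hcont : Continuous (fun a : S1 => a.1.1) := continuous_subtype_val.comp continuous_subtype_val
  have hK2 := (hK.image hcont).isClosed
  have h1 : closure A ⊆ (fun a : S1 => a.1.1) '' closure A1 := by
    apply closure_minimal _ hK2
    intro f hf
    exact ⟨⟨⟨f, hS f (hAS hf)⟩, hAS hf⟩, subset_closure hf, rfl⟩
  intro f hf
  obtain ⟨a, _, rfl⟩ := h1 hf
  exact a.2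

theorem SC.bdd {X : Type u} {S A : Set (X → ℝ)} (h : SC S A) (x : X) : ∃ M : ℝ, ∀ f ∈ A, |f x| ≤ M := by
  by_contra hcon
  push Not at hcon
  choose v hvA hv using fun n : ℕ => hcon n
  obtain ⟨g, _, hg⟩ := h v hvA
  have hopen : IsOpen {G : X → ℝ | |G x - g x| < 1} :=
    isOpen_lt (((continuous_apply x).sub continuous_const).abs) continuous_const
  have h1 := mapClusterPt_iff_frequently.mp hg _ (hopen.mem_nhds (by
    show |g x - g x| < 1
    simp))
  obtain ⟨N, hN⟩ := exists_nat_ge (|g x| + 1)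
  obtain ⟨n, hn, hn2⟩ := (h1.and_eventually (eventually_ge_atTop N)).exists
  have hn' : |v n x - g x| < 1 := hn
  have h3 := hv n
  have h4 : |v n x| ≤ |v n x - g x| + |g x| := by
    have := abs_add_le (v n x - g x) (g x)
    simpa using this
  have h5 : (N : ℝ) ≤ n := by exact_mod_cast hn2
  linarith

theorem groth_of_GG {X : Type u} [TopologicalSpace X] (hX : GG X) : Grothendieck X := by
  intro S A hA
  let ι : S → (X → ℝ) := fun a => a.1.1
  have hι : IsEmbedding ι := IsEmbedding.subtypeVal.comp IsEmbedding.subtypeVal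
  have hSC : SC (Set.range ι) (ι '' A) := by
    intro w hw
    choose w' hw'A hw' using hw
    obtain ⟨g, hg⟩ := exists_cluster A hA w' hw'A
    refine ⟨ι g, ⟨g, rfl⟩, ?_⟩
    rw [mapClusterPt_iff_frequently]
    intro U hU
    refine (hg (ι ⁻¹' U) (hι.continuous.continuousAt.preimage_mem_nhds hU)).mono fun n hn => ?_
    rw [← hw' n]
    exact hn
  choose M hM using hSC.bdd
  have hKc : IsCompact (closure (ι '' A)) := by
    apply IsCompact.of_isClosed_subset (isCompact_univ_pi (fun x => isCompact_Icc (a := -M x) (b := M x))) isClosed_closure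
    apply closure_minimal _ (isClosed_set_pi fun x _ => isClosed_Icc)
    intro f hf x _
    exact abs_le.mp (hM x f hf)
  have hrange : closure (ι '' A) ⊆ Set.range ι := by
    apply hX _ _ _ hSC
    rintro _ ⟨a, rfl⟩
    exact a.1.2
  rw [hι.isCompact_iff]
  have : ι '' closure A = closure (ι '' A) := by
    rw [hι.closure_eq_preimage_closure_image, Set.image_preimage_eq_of_subset hrange]
  rw [this]
  exact hKc

theorem GG_compact (K : Type u) [TopologicalSpace K] [CompactSpace K] [T2Space K] : GG K := by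
  apply GG_of_groth
  apply groth_of_cc
  intro B _ hB
  obtain ⟨z, _, hz⟩ := hB.exists_accPt_of_subset_isCompact isCompact_univ (Set.subset_univ B)
  exact ⟨z, hz⟩

end reform

section tools

/-- restriction along a continuous map from a Grothendieck space -/
theorem restr {X : Type u} {Y : Type v} [TopologicalSpace X] [TopologicalSpace Y] (hY : GG Y)
    (p : Y → X) (hp : Continuous p) {S A : Set (X → ℝ)} (hS : ∀ f ∈ S, Continuous f) (h : SC S A)
    (F : X → ℝ) (hF : F ∈ closure A) : Continuous (fun y => F (p y)) := by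
  have hΦ : Continuous (fun (f : X → ℝ) (y : Y) => f (p y)) := continuous_pi fun y => continuous_apply (p y)
  have h1 := hY ((fun (f : X → ℝ) (y : Y) => f (p y)) '' S) ((fun (f : X → ℝ) (y : Y) => f (p y)) '' A) (by
    rintro _ ⟨f, hf, rfl⟩
    exact (hS f hf).comp hp) (h.image _ hΦ)
  have h2 : (fun y => F (p y)) ∈ closure ((fun (f : X → ℝ) (y : Y) => f (p y)) '' A) :=
    image_closure_subset_closure_image hΦ ⟨F, hF, rfl⟩
  obtain ⟨g, hg, hgF⟩ := h1 h2
  rw [← hgF]
  exact (hS g hg).comp hp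

theorem equi_cont {X : Type u} [TopologicalSpace X] {M : Type v} [PseudoMetricSpace M] (p : X → M)
    (hp : Continuous p) (g : X → ℝ) (hg : ∀ x x', |g x - g x'| ≤ dist (p x) (p x')) : Continuous g := by
  rw [continuous_iff_continuousAt]
  intro x
  rw [ContinuousAt, tendsto_iff_dist_tendsto_zero]
  refine squeeze_zero (fun _ => dist_nonneg) (fun x' => ?_) (g := fun x' => dist (p x') (p x)) ?_
  · rw [Real.dist_eq]; exact hg x' x
  · exact tendsto_iff_dist_tendsto_zero.mp (hp.tendsto x)

theorem equi_compact {X : Type u} {M : Type v} [PseudoMetricSpace M] (p : X → M) (b : X → ℝ) :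
    IsCompact {g : X → ℝ | (∀ x, |g x| ≤ b x) ∧ ∀ x x', |g x - g x'| ≤ dist (p x) (p x')} := by
  have hcl : IsClosed {g : X → ℝ | (∀ x, |g x| ≤ b x) ∧ ∀ x x', |g x - g x'| ≤ dist (p x) (p x')} := by
    have : {g : X → ℝ | (∀ x, |g x| ≤ b x) ∧ ∀ x x', |g x - g x'| ≤ dist (p x) (p x')} =
        (⋂ x, {g : X → ℝ | |g x| ≤ b x}) ∩ ⋂ x, ⋂ x', {g : X → ℝ | |g x - g x'| ≤ dist (p x) (p x')} := by
      ext g; simp
    rw [this]
    apply IsClosed.inter
    · exact isClosed_iInter fun x => isClosed_le (continuous_apply x).abs continuous_const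
    · exact isClosed_iInter fun x => isClosed_iInter fun x' =>
        isClosed_le (((continuous_apply x).sub (continuous_apply x')).abs) continuous_const
  apply IsCompact.of_isClosed_subset (isCompact_univ_pi (fun x => isCompact_Icc (a := -b x) (b := b x))) hcl
  intro g hg x _
  exact abs_le.mp (hg.1 x)

theorem SC_of_compact {X : Type u} {C : Set (X → ℝ)} (hC : IsCompact C)
    (w : ℕ → X → ℝ) (hw : ∀ n, w n ∈ C) : ∃ g ∈ C, MapClusterPt g atTop w := by
  apply hC.exists_mapClusterPt
  rw [Filter.le_principal_iff]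
  exact Filter.mem_map.mpr (Filter.Eventually.of_forall hw)

/-- continuous maps of Grothendieck spaces to metric spaces have separable range -/
theorem sep {X : Type u} [TopologicalSpace X] (hX : GG X) {M : Type v} [PseudoMetricSpace M] (p : X → M)
    (hp : Continuous p) (ε : ℝ) (hε : 0 < ε) :
    ∃ C : Set X, C.Countable ∧ ∀ x, ∃ c ∈ C, dist (p x) (p c) < ε := by
  let A : Set (X → ℝ) := {g | ((∀ x, |g x| ≤ ε) ∧ ∀ x x', |g x - g x'| ≤ dist (p x) (p x')) ∧
    ∃ C : Set X, C.Countable ∧ ∀ x, (∀ c ∈ C, ε ≤ dist (p x) (p c)) → g x = 0}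
  have hA : SC A A := by
    intro w hw
    obtain ⟨g, hgC, hg⟩ := (equi_compact p (fun _ : X => ε)).exists_mapClusterPt (f := atTop) (u := w) (by
      rw [Filter.le_principal_iff]
      exact Filter.mem_map.mpr (Filter.Eventually.of_forall (fun n => (hw n).1)))
    choose C hC hC2 using fun n => (hw n).2
    refine ⟨g, ⟨hgC, ⋃ n, C n, Set.countable_iUnion hC, ?_⟩, hg⟩
    intro x hx
    have h1 : g ∈ closure {g : X → ℝ | g x = 0} := by
      apply mcp_mem_closure hg
      intro n
      exact hC2 n x (fun c hc => hx c (Set.mem_iUnion.mpr ⟨n, hc⟩))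
    have h2 : IsClosed {g : X → ℝ | g x = 0} := isClosed_eq (continuous_apply x) continuous_const
    rw [h2.closure_eq] at h1
    exact h1
  have hcl := hX A A (fun g hg => equi_cont p hp g hg.1.2) hA
  have hmem : (fun _ : X => ε) ∈ closure A := by
    rw [mem_cl_iff]
    intro E δ hδ
    have key : ∀ E : Finset X, ∃ g : X → ℝ, ((∀ x, |g x| ≤ ε) ∧ (∀ x x', |g x - g x'| ≤ dist (p x) (p x'))) ∧
        (∀ x ∈ E, g x = ε) ∧ (∀ x, 0 ≤ g x) ∧ ∀ x, (∀ c ∈ E, ε ≤ dist (p x) (p c)) → g x = 0 := by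
      classical
      intro E
      induction E using Finset.induction_on with
      | empty =>
        refine ⟨fun _ => 0, ⟨fun x => by simpa using hε.le, fun x x' => by simp⟩, ?_, fun _ => le_rfl, fun _ _ => rfl⟩
        intro x hx
        exact absurd hx (Finset.notMem_empty x)
      | insert e E _ ih =>
        obtain ⟨g, ⟨h1, h2⟩, h3, h4, h5⟩ := ih
        have hle : ∀ x, g x ≤ ε := fun x => (le_abs_self _).trans (h1 x)
        have hle2 : ∀ x, max 0 (ε - dist (p x) (p e)) ≤ ε := fun x =>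
          max_le hε.le (by linarith [dist_nonneg (x := p x) (y := p e)])
        refine ⟨fun x => max (g x) (max 0 (ε - dist (p x) (p e))), ⟨fun x => ?_, fun x x' => ?_⟩, ?_, ?_, ?_⟩
        · rw [abs_of_nonneg (le_max_of_le_left (h4 x))]
          exact max_le (hle x) (hle2 x)
        · refine (abs_max_sub_max_le_max _ _ _ _).trans (max_le (h2 x x') ?_)
          refine (abs_max_sub_max_le_max _ _ _ _).trans (max_le (by simp) ?_)
          have : ε - dist (p x) (p e) - (ε - dist (p x') (p e)) = dist (p x') (p e) - dist (p x) (p e) := by ring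
          rw [this, dist_comm (p x) (p x')]
          exact abs_dist_sub_le _ _ _
        · intro x hx
          rcases Finset.mem_insert.mp hx with rfl | hx
          · show max (g x) (max 0 (ε - dist (p x) (p x))) = ε
            rw [dist_self, sub_zero, max_eq_right hε.le, max_eq_right (hle x)]
          · show max (g x) (max 0 (ε - dist (p x) (p e))) = ε
            rw [h3 x hx, max_eq_left (hle2 x)]
        · intro x
          exact le_max_of_le_left (h4 x)
        · intro x hx
          show max (g x) (max 0 (ε - dist (p x) (p e))) = 0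
          rw [h5 x (fun c hc => hx c (Finset.mem_insert_of_mem hc))]
          have := hx e (Finset.mem_insert_self _ _)
          rw [max_eq_left (by linarith : ε - dist (p x) (p e) ≤ 0), max_self]
    obtain ⟨g, h12, h3, _, h5⟩ := key E
    refine ⟨g, ⟨h12, E, E.countable_toSet, fun x hx => h5 x hx⟩, ?_⟩
    intro x hx
    rw [h3 x hx]
    simpa using hδ
  obtain ⟨C, hC, hC2⟩ := (hcl hmem).2
  refine ⟨C, hC, fun x => ?_⟩
  by_contra hcon
  push Not at hcon
  exact hε.ne' (hC2 x hcon)

theorem sep2 {X : Type u} [TopologicalSpace X] (hX : GG X) {M : Type v} [PseudoMetricSpace M] (p : X → M)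
    (hp : Continuous p) : ∃ C : Set X, C.Countable ∧ ∀ x, ∀ ε > 0, ∃ c ∈ C, dist (p x) (p c) < ε := by
  choose C hC hC2 using fun n : ℕ => sep hX p hp (1 / ((n : ℝ) + 1)) (by positivity)
  refine ⟨⋃ n, C n, Set.countable_iUnion hC, fun x ε hε => ?_⟩
  obtain ⟨n, hn⟩ := exists_nat_one_div_lt hε
  obtain ⟨c, hc, hd⟩ := hC2 n x
  exact ⟨c, Set.mem_iUnion.mpr ⟨n, hc⟩, hd.trans hn⟩

variable {X : Type u} [TopologicalSpace X] {K : Type v} [TopologicalSpace K] [CompactSpace K]

/-- a continuous function on `X × K` is governed by countably many points of `X` -/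
theorem exists_C (hX : GG X) (f : X × K → ℝ) (hf : Continuous f) : ∃ C : Set X, C.Countable ∧
    ∀ k k' : K, (∀ c ∈ C, f (c, k) = f (c, k')) → ∀ x, f (x, k) = f (x, k') := by
  let p : X → C(K, ℝ) := ContinuousMap.curry ⟨f, hf⟩
  have hp : Continuous p := (ContinuousMap.curry ⟨f, hf⟩).continuous
  obtain ⟨C, hC, hC2⟩ := sep2 hX p hp
  refine ⟨C, hC, fun k k' h x => ?_⟩
  apply eq_of_close
  intro ε hε
  obtain ⟨c, hc, hd⟩ := hC2 x (ε/2) (by positivity)
  have h1 : dist (f (x, k)) (f (c, k)) ≤ dist (p x) (p c) := ContinuousMap.dist_apply_le_dist (f := p x) (g := p c) k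
  have h2 : dist (f (x, k')) (f (c, k')) ≤ dist (p x) (p c) := ContinuousMap.dist_apply_le_dist (f := p x) (g := p c) k'
  rw [Real.dist_eq] at h1 h2
  have h3 := h c hc
  rw [abs_lt]
  rw [abs_le] at h1 h2
  constructor
  · linarith [h1.1, h2.2]
  · linarith [h1.2, h2.1]

/-- the key lemma: on `X × L` with `L` countable the limit function is attained -/
theorem beta (hX : GG X) {S B : Set (X × K → ℝ)} (hS : ∀ f ∈ S, Continuous f) (h : SC S B)
    (F : X × K → ℝ) (hFX : ∀ k, Continuous fun x => F (x, k)) (L : ℕ → K)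
    (hF : ∀ (E : Finset X) (n : ℕ) (ε : ℝ), 0 < ε →
      ∃ f ∈ B, ∀ x ∈ E, ∀ i < n, |f (x, L i) - F (x, L i)| < ε) :
    ∃ g ∈ S, (∀ x i, g (x, L i) = F (x, L i)) ∧ ∃ B0, B0 ⊆ B ∧ B0.Countable ∧ g ∈ closure B0 := by
  let term : (X × K → ℝ) → X → ℕ → ℝ := fun f x i => (1/2:ℝ)^i * min 1 |f (x, L i) - F (x, L i)|
  have hnn : ∀ f x i, 0 ≤ term f x i := fun f x i =>
    mul_nonneg (by positivity) (le_min zero_le_one (abs_nonneg _))
  have hle : ∀ f x i, term f x i ≤ (1/2:ℝ)^i := fun f x i => by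
    have : min 1 |f (x, L i) - F (x, L i)| ≤ 1 := min_le_left _ _
    calc term f x i ≤ (1/2:ℝ)^i * 1 := mul_le_mul_of_nonneg_left this (by positivity)
      _ = _ := mul_one _
  have hsumm : Summable (fun i : ℕ => (1/2:ℝ)^i) := summable_geometric_two
  have hnorm : ∀ f x i, ‖term f x i‖ ≤ (1/2:ℝ)^i := fun f x i => by
    rw [Real.norm_eq_abs, abs_of_nonneg (hnn f x i)]
    exact hle f x i
  have hts : ∀ f x, Summable (term f x) := fun f x =>
    Summable.of_nonneg_of_le (hnn f x) (hle f x) hsumm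
  let Ψ : (X × K → ℝ) → (X → ℝ) := fun f x => ∑' i, term f x i
  have hΨ : Continuous Ψ := by
    apply continuous_pi
    intro x
    apply continuous_tsum (u := fun i : ℕ => (1/2:ℝ)^i) _ hsumm (fun i f => hnorm f x i)
    intro i
    exact continuous_const.mul (continuous_const.min (((continuous_apply (x, L i)).sub continuous_const).abs))
  have hΨc : ∀ f, Continuous f → Continuous (Ψ f) := by
    intro f hf
    apply continuous_tsum (u := fun i : ℕ => (1/2:ℝ)^i) _ hsumm (fun i x => hnorm f x i)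
    intro i
    exact continuous_const.mul (continuous_const.min
      (((hf.comp (continuous_id.prodMk continuous_const)).sub (hFX (L i))).abs))
  have h0 : (fun _ : X => (0:ℝ)) ∈ closure (Ψ '' B) := by
    rw [mem_cl_iff]
    intro E ε hε
    obtain ⟨n, hn⟩ := exists_pow_lt_of_lt_one (show (0:ℝ) < ε / 4 by positivity) (show (1/2:ℝ) < 1 by norm_num)
    obtain ⟨f, hf, hfE⟩ := hF E n (ε/4) (by positivity)
    refine ⟨Ψ f, ⟨f, hf, rfl⟩, fun x hx => ?_⟩
    rw [sub_zero, abs_of_nonneg (tsum_nonneg (hnn f x))]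
    have e1 : Ψ f x = ∑ i ∈ Finset.range n, term f x i + ∑' i, term f x (i + n) :=
      ((hts f x).sum_add_tsum_nat_add n).symm
    show Ψ f x < ε
    rw [e1]
    have e2 : ∑ i ∈ Finset.range n, term f x i ≤ ∑ i ∈ Finset.range n, (1/2:ℝ)^i * (ε/4) := by
      apply Finset.sum_le_sum
      intro i hi
      apply mul_le_mul_of_nonneg_left _ (by positivity)
      exact (min_le_right _ _).trans (hfE x hx i (Finset.mem_range.mp hi)).le
    have e3 : ∑ i ∈ Finset.range n, (1/2:ℝ)^i * (ε/4) ≤ 2 * (ε/4) := by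
      rw [← Finset.sum_mul]
      apply mul_le_mul_of_nonneg_right _ (by positivity)
      have := hsumm.sum_le_tsum (Finset.range n) (fun i _ => by positivity)
      rw [tsum_geometric_two] at this
      exact this
    have e4 : ∑' i, term f x (i + n) ≤ ∑' i : ℕ, (1/2:ℝ)^n * (1/2:ℝ)^i := by
      apply Summable.tsum_le_tsum
      · intro i
        calc term f x (i+n) ≤ (1/2:ℝ)^(i+n) := hle _ _ _
          _ = _ := by rw [pow_add, mul_comm]
      · exact (summable_nat_add_iff n).mpr (hts f x)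
      · exact hsumm.mul_left _
    rw [tsum_mul_left, tsum_geometric_two] at e4
    linarith
  obtain ⟨g, ⟨hgS, hB0⟩, hg0⟩ := hX (Ψ '' {g | g ∈ S ∧ ∃ B0, B0 ⊆ B ∧ B0.Countable ∧ g ∈ closure B0}) (Ψ '' B) (by
    rintro _ ⟨g, hg, rfl⟩
    exact hΨc g (hS g hg.1)) (h.refine.image Ψ hΨ) h0
  refine ⟨g, hgS, fun x i => ?_, hB0⟩
  have h1 : ∑' i, term g x i = 0 := congrFun hg0 x
  have h2 : HasSum (term g x) 0 := by
    rw [← h1]
    exact (hts g x).hasSum
  have h3 := congrFun ((hasSum_zero_iff_of_nonneg (hnn g x)).mp h2) i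
  have h4 : (1/2:ℝ)^i * min 1 |g (x, L i) - F (x, L i)| = 0 := h3
  rcases mul_eq_zero.mp h4 with h5 | h5
  · exact absurd h5 (by positivity)
  · rcases min_choice (1:ℝ) |g (x, L i) - F (x, L i)| with h6 | h6
    · rw [h6] at h5
      exact absurd h5 one_ne_zero
    · rw [h6] at h5
      exact sub_eq_zero.mp (abs_eq_zero.mp h5)

/-- joint continuity of the limit function -/
theorem joint (hX : GG X) (F : X × K → ℝ) (hFK : ∀ x, Continuous fun k => F (x, k))
    (hg : ∀ L : ℕ → K, ∃ g : X × K → ℝ, Continuous g ∧ ∀ x i, g (x, L i) = F (x, L i)) :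
    Continuous F := by
  classical
  rw [continuous_iff_continuousAt]
  rintro ⟨x0, k0⟩
  rw [ContinuousAt, Metric.tendsto_nhds]
  intro ε0 hε0
  let ε := ε0 / 2
  have hε : 0 < ε := by positivity
  let c := F (x0, k0)
  let N : Set K := {k | |F (x0, k) - c| < ε}
  have hN : N ∈ 𝓝 k0 := by
    have hopen : IsOpen N := isOpen_lt (((hFK x0).sub continuous_const).abs) continuous_const
    apply hopen.mem_nhds
    show |F (x0, k0) - F (x0, k0)| < ε
    simpa using hε
  have hk0 : k0 ∈ N := mem_of_mem_nhds hN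
  let ω : Set K → X → ℝ := fun T x => sSup ((fun k => |F (x, k) - c|) '' T)
  have hbdd : ∀ (T : Set K) x, BddAbove ((fun k => |F (x, k) - c|) '' T) := by
    intro T x
    have h1 : Continuous (fun k => |F (x, k) - c|) := ((hFK x).sub continuous_const).abs
    exact ((isCompact_univ.image h1).bddAbove).mono (Set.image_mono (Set.subset_univ T))
  have hle : ∀ (T : Set K) x, ∀ k ∈ T, |F (x, k) - c| ≤ ω T x := fun T x k hk =>
    le_csSup (hbdd T x) ⟨k, hk, rfl⟩
  have hmono : ∀ (T T' : Set K) x, T.Nonempty → T ⊆ T' → ω T x ≤ ω T' x := fun T T' x hne hT =>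
    csSup_le_csSup (hbdd T' x) (hne.image _) (Set.image_mono hT)
  have hnn : ∀ (T : Set K) x, T.Nonempty → 0 ≤ ω T x := by
    rintro T x ⟨k, hk⟩
    exact (abs_nonneg _).trans (hle T x k hk)
  let A : Set (X → ℝ) := {u | ∃ T : Finset K, T.Nonempty ∧ (T : Set K) ⊆ N ∧ u = ω T}
  have hSC : SC {u : X → ℝ | Continuous u} A := by
    intro w hw
    choose T hT1 hT2 hT3 using hw
    have hcount : (⋃ n, (T n : Set K)).Countable := Set.countable_iUnion fun n => (T n).countable_toSet
    have hne : (⋃ n, (T n : Set K)).Nonempty := by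
      obtain ⟨k, hk⟩ := hT1 0
      exact ⟨k, Set.mem_iUnion.mpr ⟨0, hk⟩⟩
    obtain ⟨L, hL⟩ := hcount.exists_eq_range hne
    obtain ⟨g, hgc, hgL⟩ := hg L
    let p : X → C(K, ℝ) := ContinuousMap.curry ⟨g, hgc⟩
    have hp : Continuous p := (ContinuousMap.curry ⟨g, hgc⟩).continuous
    have hgT : ∀ n, ∀ k ∈ T n, ∀ x, g (x, k) = F (x, k) := by
      intro n k hk x
      have : k ∈ Set.range L := by
        rw [← hL]
        exact Set.mem_iUnion.mpr ⟨n, hk⟩
      obtain ⟨i, rfl⟩ := this
      exact hgL x i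
    have hmem : ∀ n, w n ∈ {u : X → ℝ | (∀ x, |u x| ≤ ω Set.univ x) ∧ ∀ x x', |u x - u x'| ≤ dist (p x) (p x')} := by
      intro n
      rw [hT3 n]
      refine ⟨fun x => ?_, ?_⟩
      · rw [abs_of_nonneg (hnn _ x (hT1 n))]
        exact hmono _ _ x (hT1 n) (Set.subset_univ _)
      · have key : ∀ x x', ω (T n) x ≤ ω (T n) x' + dist (p x) (p x') := by
          intro x x'
          refine csSup_le (s := (fun k => |F (x, k) - c|) '' (T n : Set K)) ((Finset.coe_nonempty.mpr (hT1 n)).image _) ?_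
          rintro _ ⟨k, hk, rfl⟩
          have h1 : dist (g (x, k)) (g (x', k)) ≤ dist (p x) (p x') :=
            ContinuousMap.dist_apply_le_dist (f := p x) (g := p x') k
          rw [hgT n k hk, hgT n k hk, Real.dist_eq] at h1
          have h2 := hle (T n) x' k hk
          have h3 : |F (x, k) - c| ≤ |F (x, k) - F (x', k)| + |F (x', k) - c| := abs_sub_le _ _ _
          show |F (x, k) - c| ≤ _
          linarith
        intro x x'
        rw [abs_le]
        constructor
        · have := key x' x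
          rw [dist_comm] at this
          linarith
        · have := key x x'
          linarith
    obtain ⟨u, huC, hu⟩ := (equi_compact p (ω Set.univ)).exists_mapClusterPt (f := atTop) (u := w) (by
      rw [Filter.le_principal_iff]
      exact Filter.mem_map.mpr (Filter.Eventually.of_forall hmem))
    exact ⟨u, equi_cont p hp u huC.2, hu⟩
  have hcl := hX {u : X → ℝ | Continuous u} A (fun u hu => hu) hSC
  have hω : ω N ∈ closure A := by
    rw [mem_cl_iff]
    intro E δ hδ
    have hch : ∀ x, ∃ k ∈ N, ω N x - δ < |F (x, k) - c| := by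
      intro x
      obtain ⟨_, ⟨k, hk, rfl⟩, hlt⟩ := exists_lt_of_lt_csSup (s := (fun k => |F (x, k) - c|) '' N)
        (b := ω N x - δ) ⟨_, k0, hk0, rfl⟩ (by
          show ω N x - δ < ω N x
          linarith)
      exact ⟨k, hk, hlt⟩
    choose kk hkN hkk using hch
    let T : Finset K := insert k0 (E.image kk)
    have hTne : T.Nonempty := ⟨k0, Finset.mem_insert_self _ _⟩
    have hTN : (T : Set K) ⊆ N := by
      intro k hk
      rcases Finset.mem_insert.mp (Finset.mem_coe.mp hk) with rfl | hk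
      · exact hk0
      · obtain ⟨x, _, rfl⟩ := Finset.mem_image.mp hk
        exact hkN x
    refine ⟨ω T, ⟨T, hTne, hTN, rfl⟩, fun x hx => ?_⟩
    have h1 : ω T x ≤ ω N x := hmono _ _ x hTne hTN
    have h2 : |F (x, kk x) - c| ≤ ω T x := hle T x (kk x) (by
      exact Finset.mem_coe.mpr (Finset.mem_insert_of_mem (Finset.mem_image_of_mem _ hx)))
    have h3 := hkk x
    rw [abs_lt]
    constructor <;> linarith
  have hωc : Continuous (ω N) := hcl hω
  have hω0 : ω N x0 ≤ ε := by
    refine csSup_le (s := (fun k => |F (x0, k) - c|) '' N) ⟨_, k0, hk0, rfl⟩ ?_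
    rintro _ ⟨k, hk, rfl⟩
    exact le_of_lt hk
  have hU : ∀ᶠ x in 𝓝 x0, ω N x < ε0 := by
    apply hωc.continuousAt.eventually_lt_const
    have : ε < ε0 := by show ε0 / 2 < ε0; linarith
    linarith
  have hev : ∀ᶠ q : X × K in 𝓝 (x0, k0), ω N q.1 < ε0 ∧ q.2 ∈ N := by
    rw [nhds_prod_eq]
    exact hU.prod_mk hN
  filter_upwards [hev] with q hq
  rw [Real.dist_eq]
  exact lt_of_le_of_lt (hle N q.1 q.2 hq.2) hq.1

/-- closing off under countable-valued operations on finite sets -/
theorem closing {α : Type w} (T : Finset α → Set α) (hT : ∀ t, (T t).Countable) (s0 : Set α)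
    (h0 : s0.Countable) : ∃ s : Set α, s.Countable ∧ s0 ⊆ s ∧ ∀ t : Finset α, (t : Set α) ⊆ s → T t ⊆ s := by
  classical
  have hfin : ∀ s : Set α, s.Countable → {t : Finset α | (t : Set α) ⊆ s}.Countable := by
    intro s hs
    have : Countable s := hs.to_subtype
    apply (Set.countable_range (fun t : Finset s => t.map (Function.Embedding.subtype (· ∈ s)))).mono
    intro t ht
    exact ⟨t.subtype (· ∈ s), Finset.subtype_map_of_mem (fun x hx => ht hx)⟩
  let step : Set α → Set α := fun s => s ∪ ⋃ t ∈ {t : Finset α | (t : Set α) ⊆ s}, T t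
  have hstep : ∀ s : Set α, s.Countable → (step s).Countable := fun s hs =>
    hs.union ((hfin s hs).biUnion fun t _ => hT t)
  let q : ℕ → Set α := fun n => step^[n] s0
  have hq : ∀ n, q (n+1) = step (q n) := fun n => Function.iterate_succ_apply' step n s0
  have hqc : ∀ n, (q n).Countable := by
    intro n
    induction n with
    | zero => exact h0
    | succ n ih => rw [hq]; exact hstep _ ih
  have hqm : Monotone q := monotone_nat_of_le_succ fun n => by
    rw [hq]; exact Set.subset_union_left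
  refine ⟨⋃ n, q n, Set.countable_iUnion hqc, Set.subset_iUnion q 0, fun t ht => ?_⟩
  have : ∃ n, (t : Set α) ⊆ q n := by
    have hex : ∀ a ∈ t, ∃ n, a ∈ q n := fun a ha => Set.mem_iUnion.mp (ht ha)
    choose! m hm using hex
    refine ⟨t.sup m, fun a ha => hqm (Finset.le_sup ha) (hm a ha)⟩
  obtain ⟨n, hn⟩ := this
  refine Set.Subset.trans ?_ (Set.subset_iUnion q (n+1))
  rw [hq]
  exact Set.subset_union_of_subset_right (Set.subset_biUnion_of_mem (u := T) hn) _

/-- a countable set that is dense with respect to countably many functions -/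
theorem exists_D {K : Type v} (P : Set (K → ℝ)) (hP : P.Countable) : ∃ D : Set K, D.Countable ∧
    ∀ k : K, ∀ E : Finset (K → ℝ), (E : Set (K → ℝ)) ⊆ P → ∀ ε > 0, ∃ d ∈ D, ∀ φ ∈ E, |φ d - φ k| < ε := by
  classical
  have : Countable P := hP.to_subtype
  let q : K → (P → ℝ) := fun k φ => φ.1 k
  obtain ⟨D0, hD0, hD0d⟩ := TopologicalSpace.exists_countable_dense (Set.range q)
  choose r hr using fun z : Set.range q => z.2
  refine ⟨r '' D0, hD0.image r, fun k E hE ε hε => ?_⟩
  have h1 : (⟨q k, k, rfl⟩ : Set.range q) ∈ closure D0 := hD0d _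
  have hopen : IsOpen {z : Set.range q | ∀ φ ∈ E.subtype (· ∈ P), |z.1 φ - q k φ| < ε} := by
    have : {z : Set.range q | ∀ φ ∈ E.subtype (· ∈ P), |z.1 φ - q k φ| < ε} =
        ⋂ φ ∈ E.subtype (· ∈ P), {z : Set.range q | |z.1 φ - q k φ| < ε} := by
      ext; simp
    rw [this]
    apply isOpen_biInter_finset
    intro φ _
    exact isOpen_lt ((((continuous_apply φ).comp continuous_subtype_val).sub continuous_const).abs) continuous_const
  obtain ⟨z, hz, hzD⟩ := mem_closure_iff.mp h1 _ hopen (by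
    intro φ _
    simpa using hε)
  refine ⟨r z, ⟨z, hzD, rfl⟩, fun φ hφ => ?_⟩
  have h2 := hz ⟨φ, hE hφ⟩ (by simpa using hφ)
  rw [← hr z] at h2
  exact h2

end tools

section main

/-- the product of a Grothendieck space with a compact space -/
theorem GG_prod {X : Type u} [TopologicalSpace X] {K : Type v} [TopologicalSpace K] [CompactSpace K]
    [T2Space K] (hX : GG X) : GG (X × K) := by
  classical
  intro S A hS h F hF
  rcases isEmpty_or_nonempty K with hKe | ⟨⟨k0⟩⟩
  · have hne : A.Nonempty := by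
      by_contra hA
      rw [Set.not_nonempty_iff_eq_empty] at hA
      rw [hA, closure_empty] at hF
      exact hF
    obtain ⟨f, hf⟩ := hne
    obtain ⟨g, hg, _⟩ := h (fun _ => f) (fun _ => hf)
    have : F = g := funext fun q => (hKe.false q.2).elim
    rw [this]
    exact hg
  have hK : GG K := GG_compact K
  have hFK : ∀ x, Continuous fun k => F (x, k) := fun x =>
    restr hK (fun k => (x, k)) (by fun_prop) hS h F hF
  have hFX : ∀ k, Continuous fun x => F (x, k) := fun k =>
    restr hX (fun x => (x, k)) (by fun_prop) hS h F hF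
  have hFA : ∀ (L : ℕ → K) (E : Finset X) (n : ℕ) (ε : ℝ), 0 < ε →
      ∃ f ∈ A, ∀ x ∈ E, ∀ i < n, |f (x, L i) - F (x, L i)| < ε := by
    intro L E n ε hε
    obtain ⟨f, hf, hfE⟩ := (mem_cl_iff A F).mp hF (E ×ˢ (Finset.range n).image L) ε hε
    refine ⟨f, hf, fun x hx i hi => hfE (x, L i) ?_⟩
    exact Finset.mem_product.mpr ⟨hx, Finset.mem_image_of_mem _ (Finset.mem_range.mpr hi)⟩
  have hbeta := fun L : ℕ → K => beta hX hS h F hFX L (hFA L)
  have hFc : Continuous F := by
    apply joint hX F hFK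
    intro L
    obtain ⟨g, hg, hg2, _⟩ := hbeta L
    exact ⟨g, hS g hg, hg2⟩
  -- countable sets governing functions
  have hCex : ∀ f : X × K → ℝ, ∃ C : Set X, C.Countable ∧ (Continuous f →
      ∀ k k' : K, (∀ c ∈ C, f (c, k) = f (c, k')) → ∀ x, f (x, k) = f (x, k')) := by
    intro f
    by_cases hf : Continuous f
    · obtain ⟨C, hC, hC2⟩ := exists_C hX f hf
      exact ⟨C, hC, fun _ => hC2⟩
    · exact ⟨∅, Set.countable_empty, fun h => absurd h hf⟩
  choose C hCc hC using hCex
  -- countable approximating families over finite subsets of `K`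
  have hAex : ∀ T : Finset K, ∃ B : Set (X × K → ℝ), B.Countable ∧ B ⊆ A ∧
      ∀ (E : Finset X) (ε : ℝ), 0 < ε → ∃ f ∈ B, ∀ x ∈ E, ∀ k ∈ T, |f (x, k) - F (x, k)| < ε := by
    intro T
    obtain ⟨L, hL⟩ := ((insert k0 T : Finset K).countable_toSet).exists_eq_range ⟨k0, by simp⟩
    obtain ⟨g, hg, hg2, B, hBA, hBc, hgB⟩ := hbeta L
    refine ⟨B, hBc, hBA, fun E ε hε => ?_⟩
    obtain ⟨f, hf, hfE⟩ := (mem_cl_iff B g).mp hgB (E ×ˢ T) ε hε
    refine ⟨f, hf, fun x hx k hk => ?_⟩
    have h1 := hfE (x, k) (Finset.mem_product.mpr ⟨hx, hk⟩)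
    have h2 : k ∈ Set.range L := by
      rw [← hL]
      exact Finset.mem_coe.mpr (Finset.mem_insert_of_mem hk)
    obtain ⟨i, rfl⟩ := h2
    rw [hg2] at h1
    exact h1
  choose A0 hA0c hA0A hA0 using hAex
  -- countable dense sets for finitely many functions
  let PP : Finset (X × K → ℝ) → Set (K → ℝ) := fun T => ⋃ f ∈ T, (fun (c : X) (k : K) => f (c, k)) '' C f
  have hPP : ∀ T, (PP T).Countable := fun T =>
    T.countable_toSet.biUnion fun f _ => (hCc f).image _
  choose D hDc hD using fun T : Finset (X × K → ℝ) => exists_D (PP T) (hPP T)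
  -- closing off
  let α := K ⊕ (X × K → ℝ)
  let T : Finset α → Set α := fun t =>
    Sum.inl '' D (t.preimage Sum.inr (Sum.inr_injective.injOn)) ∪
      Sum.inr '' A0 (t.preimage Sum.inl (Sum.inl_injective.injOn))
  obtain ⟨s, hsc, hs0, hs⟩ := closing T (fun t => ((hDc _).image _).union ((hA0c _).image _))
    {Sum.inl k0, Sum.inr F} ((Set.toFinite _).countable)
  let L : Set K := Sum.inl ⁻¹' s
  have hLc : L.Countable := hsc.preimage Sum.inl_injective
  have hLne : L.Nonempty := ⟨k0, hs0 (by simp)⟩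
  let B : Set (X × K → ℝ) := {f | f ∈ A ∧ Sum.inr f ∈ s}
  obtain ⟨ℓ, hℓ⟩ := hLc.exists_eq_range hLne
  have hFs : (Sum.inr F : α) ∈ s := hs0 (by simp)
  obtain ⟨g, hgS, hgF, B0, hB0, _, hgB0⟩ := beta hX hS (h.mono (Set.Subset.refl S) (show B ⊆ A from fun f hf => hf.1)) F hFX ℓ (by
    intro E n ε hε
    let t : Finset K := (Finset.range n).image ℓ
    obtain ⟨f, hf, hfE⟩ := hA0 t E ε hε
    have ht : ((t.map ⟨Sum.inl, Sum.inl_injective⟩ : Finset α) : Set α) ⊆ s := by
      intro a ha
      rw [Finset.mem_coe, Finset.mem_map] at ha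
      obtain ⟨k, hk, rfl⟩ := ha
      obtain ⟨i, _, rfl⟩ := Finset.mem_image.mp hk
      have : ℓ i ∈ L := by rw [hℓ]; exact ⟨i, rfl⟩
      exact this
    have hpre : (t.map ⟨Sum.inl, Sum.inl_injective⟩ : Finset α).preimage Sum.inl (Sum.inl_injective.injOn) = t := by
      ext k
      simp
    refine ⟨f, ⟨hA0A t hf, ?_⟩, fun x hx i hi => hfE x hx (ℓ i) (Finset.mem_image_of_mem _ (Finset.mem_range.mpr hi))⟩
    apply hs _ ht
    right
    refine ⟨f, ?_, rfl⟩
    rw [hpre]
    exact hf)
  -- all functions concerned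
  let P : Set (K → ℝ) := {φ | ∃ f, (f ∈ B ∨ f = F) ∧ ∃ c ∈ C f, φ = fun k => f (c, k)}
  have hPc : ∀ φ ∈ P, Continuous φ := by
    rintro φ ⟨f, hf, c, _, rfl⟩
    have : Continuous f := by
      rcases hf with hf | rfl
      · obtain ⟨g', hg', hcl⟩ := h (fun _ => f) (fun _ => hf.1)
        have h1 : g' ∈ closure ({f} : Set (X × K → ℝ)) := mcp_mem_closure hcl _ (fun n => rfl)
        rw [closure_singleton] at h1
        rw [← (Set.mem_singleton_iff.mp h1)]
        exact hS g' hg'
      · exact hFc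
    fun_prop
  let q : K → (P → ℝ) := fun k φ => φ.1 k
  have hqc : Continuous q := continuous_pi fun φ => hPc φ.1 φ.2
  have hdense : ∀ k, ∃ k' ∈ closure L, ∀ φ ∈ P, φ k' = φ k := by
    intro k
    have hcomp : IsCompact (q '' closure L) := (isClosed_closure.isCompact).image hqc
    have hmem : q k ∈ closure (q '' L) := by
      rw [mem_cl_iff]
      intro E ε hε
      choose fφ hfφ cφ hcφ hφ using fun φ : P => φ.2
      let t : Finset (X × K → ℝ) := E.image fφ
      obtain ⟨d, hd, hdE⟩ := hD t k (E.image (fun φ => φ.1)) (by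
        intro φ0 hφ0
        rw [Finset.mem_coe, Finset.mem_image] at hφ0
        obtain ⟨φ, hφE, rfl⟩ := hφ0
        refine Set.mem_iUnion₂.mpr ⟨fφ φ, Finset.mem_image_of_mem _ hφE, cφ φ, hcφ φ, ?_⟩
        exact (hφ φ).symm) ε hε
      refine ⟨q d, ⟨d, ?_, rfl⟩, fun φ hφE => hdE φ.1 (Finset.mem_image_of_mem _ hφE)⟩
      have ht : ((t.map ⟨Sum.inr, Sum.inr_injective⟩ : Finset α) : Set α) ⊆ s := by
        intro a ha
        rw [Finset.mem_coe, Finset.mem_map] at ha
        obtain ⟨f, hf, rfl⟩ := ha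
        obtain ⟨φ, _, rfl⟩ := Finset.mem_image.mp hf
        rcases hfφ φ with h1 | h1
        · exact h1.2
        · show Sum.inr (fφ φ) ∈ s
          rw [h1]
          exact hFs
      have hpre : (t.map ⟨Sum.inr, Sum.inr_injective⟩ : Finset α).preimage Sum.inr (Sum.inr_injective.injOn) = t := by
        ext k
        simp
      show Sum.inl d ∈ s
      apply hs _ ht
      left
      refine ⟨d, ?_, rfl⟩
      rw [hpre]
      exact hd
    have hsub : closure (q '' L) ⊆ q '' closure L :=
      closure_minimal (Set.image_mono subset_closure) hcomp.isClosed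
    obtain ⟨k', hk', hkk⟩ := hsub hmem
    exact ⟨k', hk', fun φ hφ => congrFun hkk ⟨φ, hφ⟩⟩
  have hBeq : ∀ f, (f ∈ B ∨ f = F) → ∀ k k', (∀ φ ∈ P, φ k' = φ k) → ∀ x, f (x, k') = f (x, k) := by
    intro f hf k k' hkk
    have hfc : Continuous f := by
      rcases hf with hf | rfl
      · obtain ⟨g', hg', hcl⟩ := h (fun _ => f) (fun _ => hf.1)
        have h1 : g' ∈ closure ({f} : Set (X × K → ℝ)) := mcp_mem_closure hcl _ (fun n => rfl)
        rw [closure_singleton] at h1
        rw [← (Set.mem_singleton_iff.mp h1)]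
        exact hS g' hg'
      · exact hFc
    apply hC f hfc
    intro c hc
    exact hkk (fun k => f (c, k)) ⟨f, hf, c, hc, rfl⟩
  have hfinal : F = g := by
    funext ⟨x, k⟩
    obtain ⟨k', hk', hkk⟩ := hdense k
    have h1 : F (x, k') = F (x, k) := hBeq F (Or.inr rfl) k k' hkk x
    have h2 : g (x, k') = g (x, k) := by
      have hclosed : IsClosed {u : X × K → ℝ | u (x, k') = u (x, k)} :=
        isClosed_eq (continuous_apply _) (continuous_apply _)
      have : closure B0 ⊆ {u : X × K → ℝ | u (x, k') = u (x, k)} :=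
        closure_minimal (fun f hf => hBeq f (Or.inl (hB0 hf)) k k' hkk x) hclosed
      exact this hgB0
    have h3 : g (x, k') = F (x, k') := by
      have hclosed : IsClosed {z : K | g (x, z) = F (x, z)} :=
        isClosed_eq ((hS g hgS).comp (by fun_prop)) (hFK x)
      have : closure L ⊆ {z : K | g (x, z) = F (x, z)} := by
        apply closure_minimal _ hclosed
        intro z hz
        rw [hℓ] at hz
        obtain ⟨i, rfl⟩ := hz
        exact hgF x i
      exact this hk'
    rw [← h1, ← h3, h2]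
  rw [hfinal]
  exact hgS

end main

/-- The product of a Grothendieck space with any compact Hausdorff space is Grothendieck. -/
theorem result : ∀ (X : Type u) [TopologicalSpace X] [T35Space X], Grothendieck X →
    ∀ (K : Type v) [TopologicalSpace K] [CompactSpace K] [T2Space K], Grothendieck (X × K) := by
  intro X _ _ hX K _ _ _
  exact groth_of_GG (GG_prod (GG_of_groth hX))

end Pool.Agent.Results.MP_8a2df8_gt.GrothCompact
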